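import Pool.Agent.H65.Six.WT

set_option autoImplicit false
set_option maxRecDepth 100000

namespace Pool.Agent.H65.Six

open Pool.Agent.H122R2.N6 (B2)

theorem qart0 : (B2 fun b02 => B2 fun b12 => B2 fun b03 => B2 fun b13 => B2 fun b23 => B2 fun b04 => B2 fun b14 => B2 fun b24 => B2 fun b34 => B2 fun b05 => B2 fun b15 => B2 fun b25 => B2 fun b35 => B2 fun b45 => or (not (Nat.beq (tg 0 b02 b12 b03 b13 b23 b04 b14 b24 b34 b05 b15 b25 b35 b45) 5)) (chk7 ww qz 17179869184 327411200026 721554505728 0 b02 b12 b03 b13 b23 b04 b14 b24 b34 b05 b15 b25 b35 b45)) = true := by decide +kernel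

end Pool.Agent.H65.Six
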