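import Pool.Graph.R_seed8.W843.Lnk.Five

/-! Graphs on seven positions: codes, the leaf functional, and its symmetries. -/

set_option autoImplicit false
set_option maxRecDepth 100000
set_option maxHeartbeats 4000000
open Finset

namespace Pool.Agent.H65.Six

open Pool.Agent.H122R2.N6 (Bt B2 B2_true)
open Pool.Agent.W843.Lnk (cd10 sym5 sym5_all)

def cd5 (x y z u v : ℕ) : ℕ := Nat.add x (Nat.add (Nat.mul 2 y) (Nat.add (Nat.mul 4 z) (Nat.add (Nat.mul 8 u) (Nat.mul 16 v))))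

/-- the table of the quadratic forms is symmetric and invariant under the permutations of five points -/
def symz (qz : ℕ → ℕ → ℕ → ℕ) : Bool := B2 fun s => B2 fun i0 => B2 fun i1 => B2 fun i2 => B2 fun i3 => B2 fun i4 =>
  B2 fun j0 => B2 fun j1 => B2 fun j2 => B2 fun j3 => B2 fun j4 =>
  and (Nat.beq (qz s (cd5 j0 j1 j2 j3 j4) (cd5 i0 i1 i2 i3 i4)) (qz s (cd5 i0 i1 i2 i3 i4) (cd5 j0 j1 j2 j3 j4)))
  (and (Nat.beq (qz s (cd5 i1 i0 i2 i3 i4) (cd5 j1 j0 j2 j3 j4)) (qz s (cd5 i0 i1 i2 i3 i4) (cd5 j0 j1 j2 j3 j4)))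
  (and (Nat.beq (qz s (cd5 i0 i2 i1 i3 i4) (cd5 j0 j2 j1 j3 j4)) (qz s (cd5 i0 i1 i2 i3 i4) (cd5 j0 j1 j2 j3 j4)))
  (and (Nat.beq (qz s (cd5 i0 i1 i3 i2 i4) (cd5 j0 j1 j3 j2 j4)) (qz s (cd5 i0 i1 i2 i3 i4) (cd5 j0 j1 j2 j3 j4)))
  (Nat.beq (qz s (cd5 i0 i1 i2 i4 i3) (cd5 j0 j1 j2 j4 j3)) (qz s (cd5 i0 i1 i2 i3 i4) (cd5 j0 j1 j2 j3 j4))))))

theorem symz_all {qz : ℕ → ℕ → ℕ → ℕ} (hq : symz qz = true) {s i0 i1 i2 i3 i4 j0 j1 j2 j3 j4 : ℕ} (hs : Bt s)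
    (h0 : Bt i0) (h1 : Bt i1) (h2 : Bt i2) (h3 : Bt i3) (h4 : Bt i4) (k0 : Bt j0) (k1 : Bt j1) (k2 : Bt j2) (k3 : Bt j3) (k4 : Bt j4) :
    qz s (cd5 j0 j1 j2 j3 j4) (cd5 i0 i1 i2 i3 i4) = qz s (cd5 i0 i1 i2 i3 i4) (cd5 j0 j1 j2 j3 j4) ∧
    qz s (cd5 i1 i0 i2 i3 i4) (cd5 j1 j0 j2 j3 j4) = qz s (cd5 i0 i1 i2 i3 i4) (cd5 j0 j1 j2 j3 j4) ∧
    qz s (cd5 i0 i2 i1 i3 i4) (cd5 j0 j2 j1 j3 j4) = qz s (cd5 i0 i1 i2 i3 i4) (cd5 j0 j1 j2 j3 j4) ∧
    qz s (cd5 i0 i1 i3 i2 i4) (cd5 j0 j1 j3 j2 j4) = qz s (cd5 i0 i1 i2 i3 i4) (cd5 j0 j1 j2 j3 j4) ∧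
    qz s (cd5 i0 i1 i2 i4 i3) (cd5 j0 j1 j2 j4 j3) = qz s (cd5 i0 i1 i2 i3 i4) (cd5 j0 j1 j2 j3 j4) := by
  have h := (B2_true (B2_true (B2_true (B2_true (B2_true (B2_true (B2_true (B2_true (B2_true (B2_true (B2_true hq hs) h0) h1) h2) h3) h4) k0) k1) k2) k3) k4)
  simp only [Bool.and_eq_true] at h
  exact ⟨Nat.eq_of_beq_eq_true h.1, Nat.eq_of_beq_eq_true h.2.1, Nat.eq_of_beq_eq_true h.2.2.1, Nat.eq_of_beq_eq_true h.2.2.2.1, Nat.eq_of_beq_eq_true h.2.2.2.2⟩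

/-- sum of the weights of the sets of five positions -/
def wsum (w : ℕ → ℕ) (b01 b02 b12 b03 b13 b23 b04 b14 b24 b34 b05 b15 b25 b35 b45 b06 b16 b26 b36 b46 b56 : ℕ) : ℕ :=
  (Nat.add (w (cd10 b34 b24 b14 b04 b23 b13 b03 b12 b02 b01))
    (Nat.add (w (cd10 b35 b25 b15 b05 b23 b13 b03 b12 b02 b01))
    (Nat.add (w (cd10 b36 b26 b16 b06 b23 b13 b03 b12 b02 b01))
    (Nat.add (w (cd10 b45 b25 b15 b05 b24 b14 b04 b12 b02 b01))
    (Nat.add (w (cd10 b46 b26 b16 b06 b24 b14 b04 b12 b02 b01))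
    (Nat.add (w (cd10 b56 b26 b16 b06 b25 b15 b05 b12 b02 b01))
    (Nat.add (w (cd10 b45 b35 b15 b05 b34 b14 b04 b13 b03 b01))
    (Nat.add (w (cd10 b46 b36 b16 b06 b34 b14 b04 b13 b03 b01))
    (Nat.add (w (cd10 b56 b36 b16 b06 b35 b15 b05 b13 b03 b01))
    (Nat.add (w (cd10 b56 b46 b16 b06 b45 b15 b05 b14 b04 b01))
    (Nat.add (w (cd10 b45 b35 b25 b05 b34 b24 b04 b23 b03 b02))
    (Nat.add (w (cd10 b46 b36 b26 b06 b34 b24 b04 b23 b03 b02))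
    (Nat.add (w (cd10 b56 b36 b26 b06 b35 b25 b05 b23 b03 b02))
    (Nat.add (w (cd10 b56 b46 b26 b06 b45 b25 b05 b24 b04 b02))
    (Nat.add (w (cd10 b56 b46 b36 b06 b45 b35 b05 b34 b04 b03))
    (Nat.add (w (cd10 b45 b35 b25 b15 b34 b24 b14 b23 b13 b12))
    (Nat.add (w (cd10 b46 b36 b26 b16 b34 b24 b14 b23 b13 b12))
    (Nat.add (w (cd10 b56 b36 b26 b16 b35 b25 b15 b23 b13 b12))
    (Nat.add (w (cd10 b56 b46 b26 b16 b45 b25 b15 b24 b14 b12))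
    (Nat.add (w (cd10 b56 b46 b36 b16 b45 b35 b15 b34 b14 b13))
    (w (cd10 b56 b46 b36 b26 b45 b35 b25 b34 b24 b23))))))))))))))))))))))

/-- sum of the forms for the pairs of positions -/
def qsum (qz : ℕ → ℕ → ℕ → ℕ) (b01 b02 b12 b03 b13 b23 b04 b14 b24 b34 b05 b15 b25 b35 b45 b06 b16 b26 b36 b46 b56 : ℕ) : ℕ :=
  (Nat.add (qz b01 (cd5 b12 b13 b14 b15 b16) (cd5 b02 b03 b04 b05 b06))
    (Nat.add (qz b02 (cd5 b12 b23 b24 b25 b26) (cd5 b01 b03 b04 b05 b06))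
    (Nat.add (qz b03 (cd5 b13 b23 b34 b35 b36) (cd5 b01 b02 b04 b05 b06))
    (Nat.add (qz b04 (cd5 b14 b24 b34 b45 b46) (cd5 b01 b02 b03 b05 b06))
    (Nat.add (qz b05 (cd5 b15 b25 b35 b45 b56) (cd5 b01 b02 b03 b04 b06))
    (Nat.add (qz b06 (cd5 b16 b26 b36 b46 b56) (cd5 b01 b02 b03 b04 b05))
    (Nat.add (qz b12 (cd5 b02 b23 b24 b25 b26) (cd5 b01 b13 b14 b15 b16))
    (Nat.add (qz b13 (cd5 b03 b23 b34 b35 b36) (cd5 b01 b12 b14 b15 b16))
    (Nat.add (qz b14 (cd5 b04 b24 b34 b45 b46) (cd5 b01 b12 b13 b15 b16))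
    (Nat.add (qz b15 (cd5 b05 b25 b35 b45 b56) (cd5 b01 b12 b13 b14 b16))
    (Nat.add (qz b16 (cd5 b06 b26 b36 b46 b56) (cd5 b01 b12 b13 b14 b15))
    (Nat.add (qz b23 (cd5 b03 b13 b34 b35 b36) (cd5 b02 b12 b24 b25 b26))
    (Nat.add (qz b24 (cd5 b04 b14 b34 b45 b46) (cd5 b02 b12 b23 b25 b26))
    (Nat.add (qz b25 (cd5 b05 b15 b35 b45 b56) (cd5 b02 b12 b23 b24 b26))
    (Nat.add (qz b26 (cd5 b06 b16 b36 b46 b56) (cd5 b02 b12 b23 b24 b25))
    (Nat.add (qz b34 (cd5 b04 b14 b24 b45 b46) (cd5 b03 b13 b23 b35 b36))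
    (Nat.add (qz b35 (cd5 b05 b15 b25 b45 b56) (cd5 b03 b13 b23 b34 b36))
    (Nat.add (qz b36 (cd5 b06 b16 b26 b46 b56) (cd5 b03 b13 b23 b34 b35))
    (Nat.add (qz b45 (cd5 b05 b15 b25 b35 b56) (cd5 b04 b14 b24 b34 b46))
    (Nat.add (qz b46 (cd5 b06 b16 b26 b36 b56) (cd5 b04 b14 b24 b34 b45))
    (qz b56 (cd5 b06 b16 b26 b36 b46) (cd5 b05 b15 b25 b35 b45))))))))))))))))))))))

def esum (b01 b02 b12 b03 b13 b23 b04 b14 b24 b34 b05 b15 b25 b35 b45 b06 b16 b26 b36 b46 b56 : ℕ) : ℕ :=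
  (Nat.add b01
    (Nat.add b02
    (Nat.add b12
    (Nat.add b03
    (Nat.add b13
    (Nat.add b23
    (Nat.add b04
    (Nat.add b14
    (Nat.add b24
    (Nat.add b34
    (Nat.add b05
    (Nat.add b15
    (Nat.add b25
    (Nat.add b35
    (Nat.add b45
    (Nat.add b06
    (Nat.add b16
    (Nat.add b26
    (Nat.add b36
    (Nat.add b46
    b56))))))))))))))))))))

/-- some vertex is isolated -/
def iso (b01 b02 b12 b03 b13 b23 b04 b14 b24 b34 b05 b15 b25 b35 b45 b06 b16 b26 b36 b46 b56 : ℕ) : Bool :=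
  (or (Nat.beq (Nat.add b01 (Nat.add b02 (Nat.add b03 (Nat.add b04 (Nat.add b05 b06))))) 0)
    (or (Nat.beq (Nat.add b01 (Nat.add b12 (Nat.add b13 (Nat.add b14 (Nat.add b15 b16))))) 0)
    (or (Nat.beq (Nat.add b02 (Nat.add b12 (Nat.add b23 (Nat.add b24 (Nat.add b25 b26))))) 0)
    (or (Nat.beq (Nat.add b03 (Nat.add b13 (Nat.add b23 (Nat.add b34 (Nat.add b35 b36))))) 0)
    (or (Nat.beq (Nat.add b04 (Nat.add b14 (Nat.add b24 (Nat.add b34 (Nat.add b45 b46))))) 0)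
    (or (Nat.beq (Nat.add b05 (Nat.add b15 (Nat.add b25 (Nat.add b35 (Nat.add b45 b56))))) 0)
    (Nat.beq (Nat.add b06 (Nat.add b16 (Nat.add b26 (Nat.add b36 (Nat.add b46 b56))))) 0)))))))

/-- the inequality for all extensions of a given graph on the first six positions -/
def chk7 (w : ℕ → ℕ) (qz : ℕ → ℕ → ℕ → ℕ) (S a C : ℕ) (b01 b02 b12 b03 b13 b23 b04 b14 b24 b34 b05 b15 b25 b35 b45 : ℕ) : Bool :=
  B2 fun b06 => B2 fun b16 => B2 fun b26 => B2 fun b36 => B2 fun b46 => B2 fun b56 => or (iso b01 b02 b12 b03 b13 b23 b04 b14 b24 b34 b05 b15 b25 b35 b45 b06 b16 b26 b36 b46 b56)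
    (Nat.ble (Nat.add (qsum qz b01 b02 b12 b03 b13 b23 b04 b14 b24 b34 b05 b15 b25 b35 b45 b06 b16 b26 b36 b46 b56) a)
      (Nat.add (Nat.mul S (esum b01 b02 b12 b03 b13 b23 b04 b14 b24 b34 b05 b15 b25 b35 b45 b06 b16 b26 b36 b46 b56)) (Nat.add (wsum w b01 b02 b12 b03 b13 b23 b04 b14 b24 b34 b05 b15 b25 b35 b45 b06 b16 b26 b36 b46 b56) C)))

theorem nb {x : ℕ} (h : 0 < x) : Nat.beq x 0 = false := by
  cases x with
  | zero => omega
  | succ n => rfl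

structure Sg {P : Type} (A : P → P → ℕ) : Prop where
  b : ∀ x y, Bt (A x y)
  s : ∀ x y, A y x = A x y

section
variable {P : Type} {A : P → P → ℕ}

def WA (A : P → P → ℕ) (w : ℕ → ℕ) (a b c d e : P) : ℕ :=
  w (cd10 (A d e) (A c e) (A b e) (A a e) (A c d) (A b d) (A a d) (A b c) (A a c) (A a b))

def QA (A : P → P → ℕ) (qz : ℕ → ℕ → ℕ → ℕ) (x y a b c d e : P) : ℕ :=
  qz (A x y) (cd5 (A a y) (A b y) (A c y) (A d y) (A e y)) (cd5 (A a x) (A b x) (A c x) (A d x) (A e x))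

theorem WA_sw0 (hA : Sg A) {w : ℕ → ℕ} (hw : sym5 w = true) (a b c d e : P) : WA A w b a c d e = WA A w a b c d e := by
  have h := (sym5_all hw (hA.b d e) (hA.b c e) (hA.b b e) (hA.b a e) (hA.b c d) (hA.b b d) (hA.b a d) (hA.b b c) (hA.b a c) (hA.b a b)).1
  unfold WA
  rw [← h, hA.s a b]

theorem WA_sw1 (hA : Sg A) {w : ℕ → ℕ} (hw : sym5 w = true) (a b c d e : P) : WA A w a c b d e = WA A w a b c d e := by
  have h := (sym5_all hw (hA.b d e) (hA.b c e) (hA.b b e) (hA.b a e) (hA.b c d) (hA.b b d) (hA.b a d) (hA.b b c) (hA.b a c) (hA.b a b)).2.1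
  unfold WA
  rw [← h, hA.s b c]

theorem WA_sw2 (hA : Sg A) {w : ℕ → ℕ} (hw : sym5 w = true) (a b c d e : P) : WA A w a b d c e = WA A w a b c d e := by
  have h := (sym5_all hw (hA.b d e) (hA.b c e) (hA.b b e) (hA.b a e) (hA.b c d) (hA.b b d) (hA.b a d) (hA.b b c) (hA.b a c) (hA.b a b)).2.2.1
  unfold WA
  rw [← h, hA.s c d]

theorem WA_sw3 (hA : Sg A) {w : ℕ → ℕ} (hw : sym5 w = true) (a b c d e : P) : WA A w a b c e d = WA A w a b c d e := by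
  have h := (sym5_all hw (hA.b d e) (hA.b c e) (hA.b b e) (hA.b a e) (hA.b c d) (hA.b b d) (hA.b a d) (hA.b b c) (hA.b a c) (hA.b a b)).2.2.2
  unfold WA
  rw [← h, hA.s d e]

section
variable {qz : ℕ → ℕ → ℕ → ℕ}

theorem QA_xy (hA : Sg A) (hq : symz qz = true) (x y a b c d e : P) : QA A qz y x a b c d e = QA A qz x y a b c d e := by
  have h := (symz_all hq (hA.b x y) (hA.b a y) (hA.b b y) (hA.b c y) (hA.b d y) (hA.b e y) (hA.b a x) (hA.b b x) (hA.b c x) (hA.b d x) (hA.b e x)).1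
  unfold QA
  rw [← h, hA.s x y]

theorem QA_sw0 (hA : Sg A) (hq : symz qz = true) (x y a b c d e : P) : QA A qz x y b a c d e = QA A qz x y a b c d e := by
  have h := (symz_all hq (hA.b x y) (hA.b a y) (hA.b b y) (hA.b c y) (hA.b d y) (hA.b e y) (hA.b a x) (hA.b b x) (hA.b c x) (hA.b d x) (hA.b e x)).2.1
  unfold QA
  rw [← h]

theorem QA_sw1 (hA : Sg A) (hq : symz qz = true) (x y a b c d e : P) : QA A qz x y a c b d e = QA A qz x y a b c d e := by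
  have h := (symz_all hq (hA.b x y) (hA.b a y) (hA.b b y) (hA.b c y) (hA.b d y) (hA.b e y) (hA.b a x) (hA.b b x) (hA.b c x) (hA.b d x) (hA.b e x)).2.2.1
  unfold QA
  rw [← h]

theorem QA_sw2 (hA : Sg A) (hq : symz qz = true) (x y a b c d e : P) : QA A qz x y a b d c e = QA A qz x y a b c d e := by
  have h := (symz_all hq (hA.b x y) (hA.b a y) (hA.b b y) (hA.b c y) (hA.b d y) (hA.b e y) (hA.b a x) (hA.b b x) (hA.b c x) (hA.b d x) (hA.b e x)).2.2.2.1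
  unfold QA
  rw [← h]

theorem QA_sw3 (hA : Sg A) (hq : symz qz = true) (x y a b c d e : P) : QA A qz x y a b c e d = QA A qz x y a b c d e := by
  have h := (symz_all hq (hA.b x y) (hA.b a y) (hA.b b y) (hA.b c y) (hA.b d y) (hA.b e y) (hA.b a x) (hA.b b x) (hA.b c x) (hA.b d x) (hA.b e x)).2.2.2.2
  unfold QA
  rw [← h]

end

/-- the sums for seven points -/
def W7 (A : P → P → ℕ) (w : ℕ → ℕ) (a b c d e f g : P) : ℕ :=
  WA A w a b c d e + WA A w a b c d f + WA A w a b c d g + WA A w a b c e f + WA A w a b c e g + WA A w a b c f g + WA A w a b d e f + WA A w a b d e g + WA A w a b d f g + WA A w a b e f g + WA A w a c d e f + WA A w a c d e g + WA A w a c d f g + WA A w a c e f g + WA A w a d e f g + WA A w b c d e f + WA A w b c d e g + WA A w b c d f g + WA A w b c e f g + WA A w b d e f g + WA A w c d e f g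

def Q7 (A : P → P → ℕ) (qz : ℕ → ℕ → ℕ → ℕ) (a b c d e f g : P) : ℕ :=
  QA A qz a b c d e f g + QA A qz a c b d e f g + QA A qz a d b c e f g + QA A qz a e b c d f g + QA A qz a f b c d e g + QA A qz a g b c d e f + QA A qz b c a d e f g + QA A qz b d a c e f g + QA A qz b e a c d f g + QA A qz b f a c d e g + QA A qz b g a c d e f + QA A qz c d a b e f g + QA A qz c e a b d f g + QA A qz c f a b d e g + QA A qz c g a b d e f + QA A qz d e a b c f g + QA A qz d f a b c e g + QA A qz d g a b c e f + QA A qz e f a b c d g + QA A qz e g a b c d f + QA A qz f g a b c d e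

def E7 (A : P → P → ℕ) (a b c d e f g : P) : ℕ :=
  A a b + A a c + A a d + A a e + A a f + A a g + A b c + A b d + A b e + A b f + A b g + A c d + A c e + A c f + A c g + A d e + A d f + A d g + A e f + A e g + A f g

def Cov (A : P → P → ℕ) (a b c d e f g : P) : Prop :=
  0 < A a b + A a c + A a d + A a e + A a f + A a g ∧ 0 < A b a + A b c + A b d + A b e + A b f + A b g ∧ 0 < A c a + A c b + A c d + A c e + A c f + A c g ∧ 0 < A d a + A d b + A d c + A d e + A d f + A d g ∧ 0 < A e a + A e b + A e c + A e d + A e f + A e g ∧ 0 < A f a + A f b + A f c + A f d + A f e + A f g ∧ 0 < A g a + A g b + A g c + A g d + A g e + A g f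

theorem W7_sw0 (hA : Sg A) {w : ℕ → ℕ} (hw : sym5 w = true) (a b c d e f g : P) : W7 A w b a c d e f g = W7 A w a b c d e f g := by
  unfold W7
  rw [WA_sw0 hA hw a b c d e, WA_sw0 hA hw a b c d f, WA_sw0 hA hw a b c d g, WA_sw0 hA hw a b c e f, WA_sw0 hA hw a b c e g, WA_sw0 hA hw a b c f g, WA_sw0 hA hw a b d e f, WA_sw0 hA hw a b d e g, WA_sw0 hA hw a b d f g, WA_sw0 hA hw a b e f g]
  ring

theorem Q7_sw0 (hA : Sg A) {qz : ℕ → ℕ → ℕ → ℕ} (hq : symz qz = true) (a b c d e f g : P) : Q7 A qz b a c d e f g = Q7 A qz a b c d e f g := by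
  unfold Q7
  rw [QA_xy hA hq a b c d e f g, QA_sw0 hA hq c d a b e f g, QA_sw0 hA hq c e a b d f g, QA_sw0 hA hq c f a b d e g, QA_sw0 hA hq c g a b d e f, QA_sw0 hA hq d e a b c f g, QA_sw0 hA hq d f a b c e g, QA_sw0 hA hq d g a b c e f, QA_sw0 hA hq e f a b c d g, QA_sw0 hA hq e g a b c d f, QA_sw0 hA hq f g a b c d e]
  ring

theorem E7_sw0 (hA : Sg A) (a b c d e f g : P) : E7 A b a c d e f g = E7 A a b c d e f g := by
  unfold E7
  rw [hA.s a b]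
  ring

theorem Cov_sw0 (hA : Sg A) (a b c d e f g : P) (h : Cov A a b c d e f g) : Cov A b a c d e f g := by
  unfold Cov at h ⊢
  have hs := hA.s a b
  obtain ⟨h0, h1, h2, h3, h4, h5, h6⟩ := h
  refine ⟨?_, ?_, ?_, ?_, ?_, ?_, ?_⟩ <;> omega

theorem W7_sw1 (hA : Sg A) {w : ℕ → ℕ} (hw : sym5 w = true) (a b c d e f g : P) : W7 A w a c b d e f g = W7 A w a b c d e f g := by
  unfold W7
  rw [WA_sw1 hA hw a b c d e, WA_sw1 hA hw a b c d f, WA_sw1 hA hw a b c d g, WA_sw1 hA hw a b c e f, WA_sw1 hA hw a b c e g, WA_sw1 hA hw a b c f g, WA_sw0 hA hw b c d e f, WA_sw0 hA hw b c d e g, WA_sw0 hA hw b c d f g, WA_sw0 hA hw b c e f g]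
  ring

theorem Q7_sw1 (hA : Sg A) {qz : ℕ → ℕ → ℕ → ℕ} (hq : symz qz = true) (a b c d e f g : P) : Q7 A qz a c b d e f g = Q7 A qz a b c d e f g := by
  unfold Q7
  rw [QA_sw0 hA hq a d b c e f g, QA_sw0 hA hq a e b c d f g, QA_sw0 hA hq a f b c d e g, QA_sw0 hA hq a g b c d e f, QA_xy hA hq b c a d e f g, QA_sw1 hA hq d e a b c f g, QA_sw1 hA hq d f a b c e g, QA_sw1 hA hq d g a b c e f, QA_sw1 hA hq e f a b c d g, QA_sw1 hA hq e g a b c d f, QA_sw1 hA hq f g a b c d e]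
  ring

theorem E7_sw1 (hA : Sg A) (a b c d e f g : P) : E7 A a c b d e f g = E7 A a b c d e f g := by
  unfold E7
  rw [hA.s b c]
  ring

theorem Cov_sw1 (hA : Sg A) (a b c d e f g : P) (h : Cov A a b c d e f g) : Cov A a c b d e f g := by
  unfold Cov at h ⊢
  have hs := hA.s b c
  obtain ⟨h0, h1, h2, h3, h4, h5, h6⟩ := h
  refine ⟨?_, ?_, ?_, ?_, ?_, ?_, ?_⟩ <;> omega

theorem W7_sw2 (hA : Sg A) {w : ℕ → ℕ} (hw : sym5 w = true) (a b c d e f g : P) : W7 A w a b d c e f g = W7 A w a b c d e f g := by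
  unfold W7
  rw [WA_sw2 hA hw a b c d e, WA_sw2 hA hw a b c d f, WA_sw2 hA hw a b c d g, WA_sw1 hA hw a c d e f, WA_sw1 hA hw a c d e g, WA_sw1 hA hw a c d f g, WA_sw1 hA hw b c d e f, WA_sw1 hA hw b c d e g, WA_sw1 hA hw b c d f g, WA_sw0 hA hw c d e f g]
  ring

theorem Q7_sw2 (hA : Sg A) {qz : ℕ → ℕ → ℕ → ℕ} (hq : symz qz = true) (a b c d e f g : P) : Q7 A qz a b d c e f g = Q7 A qz a b c d e f g := by
  unfold Q7
  rw [QA_sw0 hA hq a b c d e f g, QA_sw1 hA hq a e b c d f g, QA_sw1 hA hq a f b c d e g, QA_sw1 hA hq a g b c d e f, QA_sw1 hA hq b e a c d f g, QA_sw1 hA hq b f a c d e g, QA_sw1 hA hq b g a c d e f, QA_xy hA hq c d a b e f g, QA_sw2 hA hq e f a b c d g, QA_sw2 hA hq e g a b c d f, QA_sw2 hA hq f g a b c d e]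
  ring

theorem E7_sw2 (hA : Sg A) (a b c d e f g : P) : E7 A a b d c e f g = E7 A a b c d e f g := by
  unfold E7
  rw [hA.s c d]
  ring

theorem Cov_sw2 (hA : Sg A) (a b c d e f g : P) (h : Cov A a b c d e f g) : Cov A a b d c e f g := by
  unfold Cov at h ⊢
  have hs := hA.s c d
  obtain ⟨h0, h1, h2, h3, h4, h5, h6⟩ := h
  refine ⟨?_, ?_, ?_, ?_, ?_, ?_, ?_⟩ <;> omega

theorem W7_sw3 (hA : Sg A) {w : ℕ → ℕ} (hw : sym5 w = true) (a b c d e f g : P) : W7 A w a b c e d f g = W7 A w a b c d e f g := by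
  unfold W7
  rw [WA_sw3 hA hw a b c d e, WA_sw2 hA hw a b d e f, WA_sw2 hA hw a b d e g, WA_sw2 hA hw a c d e f, WA_sw2 hA hw a c d e g, WA_sw1 hA hw a d e f g, WA_sw2 hA hw b c d e f, WA_sw2 hA hw b c d e g, WA_sw1 hA hw b d e f g, WA_sw1 hA hw c d e f g]
  ring

theorem Q7_sw3 (hA : Sg A) {qz : ℕ → ℕ → ℕ → ℕ} (hq : symz qz = true) (a b c d e f g : P) : Q7 A qz a b c e d f g = Q7 A qz a b c d e f g := by
  unfold Q7
  rw [QA_sw1 hA hq a b c d e f g, QA_sw1 hA hq a c b d e f g, QA_sw2 hA hq a f b c d e g, QA_sw2 hA hq a g b c d e f, QA_sw1 hA hq b c a d e f g, QA_sw2 hA hq b f a c d e g, QA_sw2 hA hq b g a c d e f, QA_sw2 hA hq c f a b d e g, QA_sw2 hA hq c g a b d e f, QA_xy hA hq d e a b c f g, QA_sw3 hA hq f g a b c d e]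
  ring

theorem E7_sw3 (hA : Sg A) (a b c d e f g : P) : E7 A a b c e d f g = E7 A a b c d e f g := by
  unfold E7
  rw [hA.s d e]
  ring

theorem Cov_sw3 (hA : Sg A) (a b c d e f g : P) (h : Cov A a b c d e f g) : Cov A a b c e d f g := by
  unfold Cov at h ⊢
  have hs := hA.s d e
  obtain ⟨h0, h1, h2, h3, h4, h5, h6⟩ := h
  refine ⟨?_, ?_, ?_, ?_, ?_, ?_, ?_⟩ <;> omega

theorem W7_sw4 (hA : Sg A) {w : ℕ → ℕ} (hw : sym5 w = true) (a b c d e f g : P) : W7 A w a b c d f e g = W7 A w a b c d e f g := by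
  unfold W7
  rw [WA_sw3 hA hw a b c e f, WA_sw3 hA hw a b d e f, WA_sw2 hA hw a b e f g, WA_sw3 hA hw a c d e f, WA_sw2 hA hw a c e f g, WA_sw2 hA hw a d e f g, WA_sw3 hA hw b c d e f, WA_sw2 hA hw b c e f g, WA_sw2 hA hw b d e f g, WA_sw2 hA hw c d e f g]
  ring

theorem Q7_sw4 (hA : Sg A) {qz : ℕ → ℕ → ℕ → ℕ} (hq : symz qz = true) (a b c d e f g : P) : Q7 A qz a b c d f e g = Q7 A qz a b c d e f g := by
  unfold Q7
  rw [QA_sw2 hA hq a b c d e f g, QA_sw2 hA hq a c b d e f g, QA_sw2 hA hq a d b c e f g, QA_sw3 hA hq a g b c d e f, QA_sw2 hA hq b c a d e f g, QA_sw2 hA hq b d a c e f g, QA_sw3 hA hq b g a c d e f, QA_sw2 hA hq c d a b e f g, QA_sw3 hA hq c g a b d e f, QA_sw3 hA hq d g a b c e f, QA_xy hA hq e f a b c d g]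
  ring

theorem E7_sw4 (hA : Sg A) (a b c d e f g : P) : E7 A a b c d f e g = E7 A a b c d e f g := by
  unfold E7
  rw [hA.s e f]
  ring

theorem Cov_sw4 (hA : Sg A) (a b c d e f g : P) (h : Cov A a b c d e f g) : Cov A a b c d f e g := by
  unfold Cov at h ⊢
  have hs := hA.s e f
  obtain ⟨h0, h1, h2, h3, h4, h5, h6⟩ := h
  refine ⟨?_, ?_, ?_, ?_, ?_, ?_, ?_⟩ <;> omega

theorem wsum_eq (w : ℕ → ℕ) (a b c d e f g : P) :
    wsum w (A a b) (A a c) (A b c) (A a d) (A b d) (A c d) (A a e) (A b e) (A c e) (A d e) (A a f) (A b f) (A c f) (A d f) (A e f) (A a g) (A b g) (A c g) (A d g) (A e g) (A f g) = W7 A w a b c d e f g := by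
  unfold wsum W7 WA
  simp only [Nat.add_eq]
  ring

theorem qsum_eq (hA : Sg A) (qz : ℕ → ℕ → ℕ → ℕ) (a b c d e f g : P) :
    qsum qz (A a b) (A a c) (A b c) (A a d) (A b d) (A c d) (A a e) (A b e) (A c e) (A d e) (A a f) (A b f) (A c f) (A d f) (A e f) (A a g) (A b g) (A c g) (A d g) (A e g) (A f g) = Q7 A qz a b c d e f g := by
  unfold qsum Q7 QA
  simp only [Nat.add_eq, hA.s a b, hA.s a c, hA.s a d, hA.s a e, hA.s a f, hA.s a g, hA.s b c, hA.s b d, hA.s b e, hA.s b f, hA.s b g, hA.s c d, hA.s c e, hA.s c f, hA.s c g, hA.s d e, hA.s d f, hA.s d g, hA.s e f, hA.s e g, hA.s f g]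
  ring

theorem esum_eq (a b c d e f g : P) :
    esum (A a b) (A a c) (A b c) (A a d) (A b d) (A c d) (A a e) (A b e) (A c e) (A d e) (A a f) (A b f) (A c f) (A d f) (A e f) (A a g) (A b g) (A c g) (A d g) (A e g) (A f g) = E7 A a b c d e f g := by
  unfold esum E7
  simp only [Nat.add_eq]
  ring

theorem iso_eq (hA : Sg A) (a b c d e f g : P) (h : Cov A a b c d e f g) :
    iso (A a b) (A a c) (A b c) (A a d) (A b d) (A c d) (A a e) (A b e) (A c e) (A d e) (A a f) (A b f) (A c f) (A d f) (A e f) (A a g) (A b g) (A c g) (A d g) (A e g) (A f g) = false := by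
  unfold Cov at h
  obtain ⟨h0, h1, h2, h3, h4, h5, h6⟩ := h
  simp only [hA.s a b, hA.s a c, hA.s a d, hA.s a e, hA.s a f, hA.s a g, hA.s b c, hA.s b d, hA.s b e, hA.s b f, hA.s b g, hA.s c d, hA.s c e, hA.s c f, hA.s c g, hA.s d e, hA.s d f, hA.s d g, hA.s e f, hA.s e g, hA.s f g] at h0 h1 h2 h3 h4 h5 h6
  unfold iso
  simp only [Nat.add_eq, Bool.or_eq_false_iff]
  refine ⟨?_, ?_, ?_, ?_, ?_, ?_, ?_⟩ <;> (apply nb; omega)

end
end Pool.Agent.H65.Six
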