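import Pool.Agent.H65.Six.TabL
import Pool.Agent.H65.Six.Defs

set_option autoImplicit false
set_option maxRecDepth 100000

namespace Pool.Agent.H65.Six

open Pool.Agent.H122R2.N6

theorem cz0 : chkz 0 = true := by decide +kernel
theorem cz1 : chkz 1 = true := by decide +kernel
theorem cpb : chk2 = true := by decide +kernel
theorem cs4 : sym4 q4 = true := by decide +kernel
theorem cs2 : sym2 q2 = true := by decide +kernel
theorem csz : symz qz = true := by decide +kernel

end Pool.Agent.H65.Six
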