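import Pool.Agent.H65.Six.Leaf
import Pool.Graph.R_seed8.W843.Lnk.Link

/-! Sums over the tuples of seven points of a 5-graph. -/

set_option autoImplicit false
set_option maxRecDepth 100000
set_option maxHeartbeats 4000000
open Finset
open Pool.Agent.H120R2.Clique
open Pool.Agent.H122R2.N6 (Sy Bt psd)
open Pool.Agent.W843.Lnk

namespace Pool.Agent.H65.Six

section
variable {V : Type} [Fintype V] [DecidableEq V]

/-- the graph on the positions: two positions are adjacent if the points in the other positions form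
no member of `G` -/
def ad (G : Finset (Finset V)) (x : Fin 7 → V) (i j : Fin 7) : ℕ := fe G (((univ.erase i).erase j).image x)

omit [Fintype V] in
theorem ad_Sg (G : Finset (Finset V)) (x : Fin 7 → V) : Sg (ad G x) where
  b i j := by
    unfold ad fe
    split_ifs
    · exact Or.inl rfl
    · exact Or.inr rfl
  s i j := by unfold ad; rw [Finset.erase_right_comm]

omit [Fintype V] in
theorem ad_perm (G : Finset (Finset V)) (x : Fin 7 → V) (σ : Equiv.Perm (Fin 7)) (i j : Fin 7) :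
    ad G (x ∘ σ) i j = ad G x (σ i) (σ j) := by
  unfold ad
  have : ((univ.erase i).erase j).image (x ∘ σ) = ((univ.erase (σ i)).erase (σ j)).image x := by
    rw [← image_image]
    congr 1
    ext k
    simp only [mem_image, mem_erase, mem_univ, and_true]
    constructor
    · rintro ⟨l, ⟨h1, h2⟩, rfl⟩
      exact ⟨fun h => h1 (σ.injective h), fun h => h2 (σ.injective h)⟩
    · rintro ⟨h1, h2⟩
      refine ⟨σ.symm k, ⟨fun h => h1 ?_, fun h => h2 ?_⟩, Equiv.apply_symm_apply _ _⟩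
      · rw [← h, Equiv.apply_symm_apply]
      · rw [← h, Equiv.apply_symm_apply]
  rw [this]

theorem sum_reindex (G : Finset (Finset V)) (F : (Fin 7 → Fin 7 → ℕ) → ℤ) (σ : Equiv.Perm (Fin 7)) :
    ∑ x : Fin 7 → V, F (fun i j => ad G x (σ i) (σ j)) = ∑ x : Fin 7 → V, F (ad G x) := by
  rw [← sum_perm σ (fun x => F (ad G x))]
  refine sum_congr rfl fun x _ => ?_
  congr 1
  funext i j
  exact (ad_perm G x σ i j).symm

theorem sumW7 (G : Finset (Finset V)) (w : ℕ → ℕ) :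
    ∑ x : Fin 7 → V, (W7 (ad G x) w 0 1 2 3 4 5 6 : ℤ) = 21 * ∑ x : Fin 7 → V, (WA (ad G x) w 0 1 2 3 4 : ℤ) := by
  have f : ∀ i0 i1 i2 i3 i4 i5 i6 : Fin 7, Function.Injective ![i0, i1, i2, i3, i4, i5, i6] →
      ∑ x : Fin 7 → V, (WA (ad G x) w i0 i1 i2 i3 i4 : ℤ) = ∑ x : Fin 7 → V, (WA (ad G x) w 0 1 2 3 4 : ℤ) :=
    fun i0 i1 i2 i3 i4 i5 i6 hg => sum_reindex G (fun A => (WA A w 0 1 2 3 4 : ℤ))
      (Equiv.ofBijective _ (Finite.injective_iff_bijective.mp hg))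
  simp only [W7, Nat.cast_add, sum_add_distrib]
  rw [f 0 1 2 3 5 4 6 (by decide), f 0 1 2 3 6 4 5 (by decide), f 0 1 2 4 5 3 6 (by decide), f 0 1 2 4 6 3 5 (by decide), f 0 1 2 5 6 3 4 (by decide), f 0 1 3 4 5 2 6 (by decide), f 0 1 3 4 6 2 5 (by decide), f 0 1 3 5 6 2 4 (by decide), f 0 1 4 5 6 2 3 (by decide), f 0 2 3 4 5 1 6 (by decide), f 0 2 3 4 6 1 5 (by decide), f 0 2 3 5 6 1 4 (by decide), f 0 2 4 5 6 1 3 (by decide), f 0 3 4 5 6 1 2 (by decide), f 1 2 3 4 5 0 6 (by decide), f 1 2 3 4 6 0 5 (by decide), f 1 2 3 5 6 0 4 (by decide), f 1 2 4 5 6 0 3 (by decide), f 1 3 4 5 6 0 2 (by decide), f 2 3 4 5 6 0 1 (by decide)]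
  ring

theorem sumQ7 (G : Finset (Finset V)) (qz : ℕ → ℕ → ℕ → ℕ) :
    ∑ x : Fin 7 → V, (Q7 (ad G x) qz 0 1 2 3 4 5 6 : ℤ) = 21 * ∑ x : Fin 7 → V, (QA (ad G x) qz 5 6 0 1 2 3 4 : ℤ) := by
  have f : ∀ i5 i6 i0 i1 i2 i3 i4 : Fin 7, Function.Injective ![i0, i1, i2, i3, i4, i5, i6] →
      ∑ x : Fin 7 → V, (QA (ad G x) qz i5 i6 i0 i1 i2 i3 i4 : ℤ) = ∑ x : Fin 7 → V, (QA (ad G x) qz 5 6 0 1 2 3 4 : ℤ) :=
    fun i5 i6 i0 i1 i2 i3 i4 hg => sum_reindex G (fun A => (QA A qz 5 6 0 1 2 3 4 : ℤ))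
      (Equiv.ofBijective _ (Finite.injective_iff_bijective.mp hg))
  simp only [Q7, Nat.cast_add, sum_add_distrib]
  rw [f 0 1 2 3 4 5 6 (by decide), f 0 2 1 3 4 5 6 (by decide), f 0 3 1 2 4 5 6 (by decide), f 0 4 1 2 3 5 6 (by decide), f 0 5 1 2 3 4 6 (by decide), f 0 6 1 2 3 4 5 (by decide), f 1 2 0 3 4 5 6 (by decide), f 1 3 0 2 4 5 6 (by decide), f 1 4 0 2 3 5 6 (by decide), f 1 5 0 2 3 4 6 (by decide), f 1 6 0 2 3 4 5 (by decide), f 2 3 0 1 4 5 6 (by decide), f 2 4 0 1 3 5 6 (by decide), f 2 5 0 1 3 4 6 (by decide), f 2 6 0 1 3 4 5 (by decide), f 3 4 0 1 2 5 6 (by decide), f 3 5 0 1 2 4 6 (by decide), f 3 6 0 1 2 4 5 (by decide), f 4 5 0 1 2 3 6 (by decide), f 4 6 0 1 2 3 5 (by decide)]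
  ring

theorem sumE7 (G : Finset (Finset V)) :
    ∑ x : Fin 7 → V, (E7 (ad G x) 0 1 2 3 4 5 6 : ℤ) = 21 * ∑ x : Fin 7 → V, (ad G x 5 6 : ℤ) := by
  have f : ∀ i5 i6 i0 i1 i2 i3 i4 : Fin 7, Function.Injective ![i0, i1, i2, i3, i4, i5, i6] →
      ∑ x : Fin 7 → V, (ad G x i5 i6 : ℤ) = ∑ x : Fin 7 → V, (ad G x 5 6 : ℤ) :=
    fun i5 i6 i0 i1 i2 i3 i4 hg => sum_reindex G (fun A => (A 5 6 : ℤ))
      (Equiv.ofBijective _ (Finite.injective_iff_bijective.mp hg))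
  simp only [E7, Nat.cast_add, sum_add_distrib]
  rw [f 0 1 2 3 4 5 6 (by decide), f 0 2 1 3 4 5 6 (by decide), f 0 3 1 2 4 5 6 (by decide), f 0 4 1 2 3 5 6 (by decide), f 0 5 1 2 3 4 6 (by decide), f 0 6 1 2 3 4 5 (by decide), f 1 2 0 3 4 5 6 (by decide), f 1 3 0 2 4 5 6 (by decide), f 1 4 0 2 3 5 6 (by decide), f 1 5 0 2 3 4 6 (by decide), f 1 6 0 2 3 4 5 (by decide), f 2 3 0 1 4 5 6 (by decide), f 2 4 0 1 3 5 6 (by decide), f 2 5 0 1 3 4 6 (by decide), f 2 6 0 1 3 4 5 (by decide), f 3 4 0 1 2 5 6 (by decide), f 3 5 0 1 2 4 6 (by decide), f 3 6 0 1 2 4 5 (by decide), f 4 5 0 1 2 3 6 (by decide), f 4 6 0 1 2 3 5 (by decide)]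
  ring

omit [Fintype V] in
theorem adlk (G : Finset (Finset V)) (x : Fin 7 → V) (i j a b c : Fin 7)
    (h : (univ.erase i).erase j = ({a, b, c, 5, 6} : Finset (Fin 7))) :
    ad G x i j = lk G ![x 5, x 6] (x a) (x b) (x c) := by
  unfold ad lk
  rw [h]
  congr 1
  simp only [image_insert, image_singleton]
  congr 3
  ext z
  simp only [mem_insert, mem_singleton, mem_image, mem_univ, true_and, Fin.exists_fin_two]
  constructor
  · rintro (rfl | rfl)
    · exact Or.inl rfl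
    · exact Or.inr rfl
  · rintro (h | h)
    · exact Or.inl h.symm
    · exact Or.inr h.symm

omit [Fintype V] in
theorem adm (G : Finset (Finset V)) (x : Fin 7 → V) (i j a b c d e : Fin 7)
    (h : (univ.erase i).erase j = ({a, b, c, d, e} : Finset (Fin 7))) :
    ad G x i j = fe G {x a, x b, x c, x d, x e} := by
  unfold ad
  rw [h]
  simp only [image_insert, image_singleton]

omit [Fintype V] in
theorem WA_link (G : Finset (Finset V)) (w : ℕ → ℕ) (x : Fin 7 → V) :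
    WA (ad G x) w 0 1 2 3 4 = W5 (lk G ![x 5, x 6]) w (x 0) (x 1) (x 2) (x 3) (x 4) := by
  unfold WA W5
  rw [adlk G x 3 4 0 1 2 (by decide), adlk G x 2 4 0 1 3 (by decide), adlk G x 1 4 0 2 3 (by decide),
    adlk G x 0 4 1 2 3 (by decide), adlk G x 2 3 0 1 4 (by decide), adlk G x 1 3 0 2 4 (by decide),
    adlk G x 0 3 1 2 4 (by decide), adlk G x 1 2 0 3 4 (by decide), adlk G x 0 2 1 3 4 (by decide),
    adlk G x 0 1 2 3 4 (by decide)]

def e7 (V : Type) : (Fin 7 → V) ≃ (Fin 2 → V) × V × V × V × V × V where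
  toFun x := (![x 5, x 6], x 0, x 1, x 2, x 3, x 4)
  invFun q := ![q.2.1, q.2.2.1, q.2.2.2.1, q.2.2.2.2.1, q.2.2.2.2.2, q.1 0, q.1 1]
  left_inv x := by funext i; fin_cases i <;> rfl
  right_inv q := by
    obtain ⟨p, a, b, c, d, e⟩ := q
    refine Prod.ext (funext fun i => ?_) rfl
    fin_cases i <;> rfl

theorem sumWlink (G : Finset (Finset V)) (w : ℕ → ℕ) :
    ∑ x : Fin 7 → V, (WA (ad G x) w 0 1 2 3 4 : ℤ) = ∑ p : Fin 2 → V, TW (lk G p) w := by
  have h : ∀ x : Fin 7 → V, (WA (ad G x) w 0 1 2 3 4 : ℤ)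
      = (fun q : (Fin 2 → V) × V × V × V × V × V => (W5 (lk G q.1) w q.2.1 q.2.2.1 q.2.2.2.1 q.2.2.2.2.1 q.2.2.2.2.2 : ℤ)) (e7 V x) := by
    intro x
    rw [WA_link]
    rfl
  rw [Fintype.sum_equiv (e7 V) _ (fun q : (Fin 2 → V) × V × V × V × V × V => (W5 (lk G q.1) w q.2.1 q.2.2.1 q.2.2.2.1 q.2.2.2.2.1 q.2.2.2.2.2 : ℤ)) h]
  simp only [Fintype.sum_prod_type]
  rfl

/-- the flag of `y` over five points -/
def kap (G : Finset (Finset V)) (a b c d e y : V) : ℕ :=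
  cd5 (fe G {b, c, d, e, y}) (fe G {a, c, d, e, y}) (fe G {a, b, d, e, y}) (fe G {a, b, c, e, y}) (fe G {a, b, c, d, y})

omit [Fintype V] in
theorem fe_lt (G : Finset (Finset V)) (A : Finset V) : fe G A < 2 := by
  unfold fe
  split_ifs <;> norm_num

omit [Fintype V] in
theorem kap_lt (G : Finset (Finset V)) (a b c d e y : V) : kap G a b c d e y < 32 := by
  have h0 := fe_lt G {b, c, d, e, y}
  have h1 := fe_lt G {a, c, d, e, y}
  have h2 := fe_lt G {a, b, d, e, y}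
  have h3 := fe_lt G {a, b, c, e, y}
  have h4 := fe_lt G {a, b, c, d, y}
  show fe G {b, c, d, e, y} + (2 * fe G {a, c, d, e, y} + (4 * fe G {a, b, d, e, y} + (8 * fe G {a, b, c, e, y} + 16 * fe G {a, b, c, d, y}))) < 32
  omega

omit [Fintype V] in
theorem QA_kap (G : Finset (Finset V)) (qz : ℕ → ℕ → ℕ → ℕ) (x : Fin 7 → V) :
    QA (ad G x) qz 5 6 0 1 2 3 4 = qz (fe G {x 0, x 1, x 2, x 3, x 4})
      (kap G (x 0) (x 1) (x 2) (x 3) (x 4) (x 5)) (kap G (x 0) (x 1) (x 2) (x 3) (x 4) (x 6)) := by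
  unfold QA kap
  rw [adm G x 5 6 0 1 2 3 4 (by decide), adm G x 0 6 1 2 3 4 5 (by decide), adm G x 1 6 0 2 3 4 5 (by decide),
    adm G x 2 6 0 1 3 4 5 (by decide), adm G x 3 6 0 1 2 4 5 (by decide), adm G x 4 6 0 1 2 3 5 (by decide),
    adm G x 0 5 1 2 3 4 6 (by decide), adm G x 1 5 0 2 3 4 6 (by decide),
    adm G x 2 5 0 1 3 4 6 (by decide), adm G x 3 5 0 1 2 4 6 (by decide), adm G x 4 5 0 1 2 3 6 (by decide)]

def e77 (V : Type) : (Fin 7 → V) ≃ V × V × V × V × V × V × V where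
  toFun x := (x 0, x 1, x 2, x 3, x 4, x 5, x 6)
  invFun q := ![q.1, q.2.1, q.2.2.1, q.2.2.2.1, q.2.2.2.2.1, q.2.2.2.2.2.1, q.2.2.2.2.2.2]
  left_inv x := by funext i; fin_cases i <;> rfl
  right_inv q := rfl

theorem sum77 (g : V → V → V → V → V → V → V → ℤ) :
    ∑ x : Fin 7 → V, g (x 0) (x 1) (x 2) (x 3) (x 4) (x 5) (x 6)
      = ∑ a, ∑ b, ∑ c, ∑ d, ∑ e, ∑ y, ∑ z, g a b c d e y z := by
  have h : ∀ x : Fin 7 → V, g (x 0) (x 1) (x 2) (x 3) (x 4) (x 5) (x 6)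
      = (fun q : V × V × V × V × V × V × V => g q.1 q.2.1 q.2.2.1 q.2.2.2.1 q.2.2.2.2.1 q.2.2.2.2.2.1 q.2.2.2.2.2.2) (e77 V x) :=
    fun x => rfl
  rw [Fintype.sum_equiv (e77 V) _ (fun q : V × V × V × V × V × V × V => g q.1 q.2.1 q.2.2.1 q.2.2.2.1 q.2.2.2.2.1 q.2.2.2.2.2.1 q.2.2.2.2.2.2) h]
  simp only [Fintype.sum_prod_type]

theorem lowQ (G : Finset (Finset V)) (qz : ℕ → ℕ → ℕ → ℕ) (l : ℕ → ℕ → ℕ → ℕ) (K : ℕ) (B O : ℤ)
    (hqz : ∀ s i j, s < 2 → i < 32 → j < 32 → (qz s i j : ℤ) =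
      ∑ k ∈ range K, ((1 : ℕ) : ℤ) * ((l s i k : ℤ) - B) * ((l s j k : ℤ) - B) + O) :
    O * (Fintype.card V : ℤ) ^ 7 ≤ ∑ x : Fin 7 → V, (QA (ad G x) qz 5 6 0 1 2 3 4 : ℤ) := by
  simp only [QA_kap]
  rw [sum77 (fun a b c d e y z => (qz (fe G {a, b, c, d, e}) (kap G a b c d e y) (kap G a b c d e z) : ℤ))]
  have e1 : O * (Fintype.card V : ℤ) ^ 7 = ∑ a : V, ∑ b : V, ∑ c : V, ∑ d : V, ∑ e : V, ∑ y : V, ∑ z : V, O := by
    simp only [sum_const, card_univ, nsmul_eq_mul]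
    ring
  rw [e1]
  refine sum_le_sum fun a _ => sum_le_sum fun b _ => sum_le_sum fun c _ => sum_le_sum fun d _ => sum_le_sum fun e _ => ?_
  have e2 : ∀ y z : V, (qz (fe G {a, b, c, d, e}) (kap G a b c d e y) (kap G a b c d e z) : ℤ) = _ := fun y z =>
    hqz _ _ _ (fe_lt G _) (kap_lt G a b c d e y) (kap_lt G a b c d e z)
  simp only [e2, sum_add_distrib]
  have p := psd K (fun _ => 1)
    (fun k y => (l (fe G {a, b, c, d, e}) (kap G a b c d e y) k : ℤ) - B)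
  linarith

theorem sum_fe5 (G : Finset (Finset V)) :
    ∑ x : Fin 7 → V, (ad G x 5 6 : ℤ) = (Fintype.card V : ℤ) ^ 2 * ∑ y : Fin 5 → V, (fe G (univ.image y) : ℤ) := by
  have h : ∀ x : Fin 7 → V, (ad G x 5 6 : ℤ) = (fe G {x 0, x 1, x 2, x 3, x 4} : ℤ) := by
    intro x
    rw [adm G x 5 6 0 1 2 3 4 (by decide)]
  simp only [h]
  rw [sum77 (fun a b c d e _ _ => (fe G {a, b, c, d, e} : ℤ))]
  have h2 : ∑ y : Fin 5 → V, (fe G (univ.image y) : ℤ) = ∑ a, ∑ b, ∑ c, ∑ d, ∑ e, (fe G {a, b, c, d, e} : ℤ) := by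
    rw [Pool.Agent.W843.Lnk.sum_cons]
    refine sum_congr rfl fun a _ => ?_
    rw [Pool.Agent.W843.Lnk.sum_cons]
    refine sum_congr rfl fun b _ => ?_
    rw [Pool.Agent.W843.Lnk.sum_cons]
    refine sum_congr rfl fun c _ => ?_
    rw [Pool.Agent.W843.Lnk.sum_cons]
    refine sum_congr rfl fun d _ => ?_
    rw [Pool.Agent.W843.Lnk.sum_cons]
    refine sum_congr rfl fun e _ => ?_
    rw [Fintype.sum_unique]
    simp only [image_cons]
    rfl
  rw [h2]
  simp only [sum_const, card_univ, nsmul_eq_mul, mul_sum]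
  refine sum_congr rfl fun a _ => sum_congr rfl fun b _ => sum_congr rfl fun c _ => sum_congr rfl fun d _ => sum_congr rfl fun e _ => ?_
  ring

end

/-- every position has a neighbour -/
theorem cov {n : ℕ} {G : Finset (Finset (Fin n))} (hr : ∀ A ∈ G, A.card = 5)
    (hK : ¬ HasClique G 5 6) (x : Fin 7 → Fin n) : Cov (ad G x) 0 1 2 3 4 5 6 := by
  have key : ∀ i : Fin 7, ∃ j : Fin 6, ad G x i (i.succAbove j) = 1 := by
    intro i
    obtain ⟨j, hj⟩ := cover (r := 5) (by norm_num) hr hK (x ∘ i.succAbove)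
    refine ⟨j, ?_⟩
    rw [mem_bad] at hj
    unfold ad fe
    rw [if_neg]
    intro h
    apply hj
    have e : (univ.erase j).image (x ∘ i.succAbove) = ((univ.erase i).erase (i.succAbove j)).image x := by
      rw [← image_image]
      congr 1
      ext k
      simp only [mem_image, mem_erase, mem_univ, and_true]
      constructor
      · rintro ⟨l, h1, rfl⟩
        exact ⟨fun h => h1 (Fin.succAbove_right_injective h), Fin.succAbove_ne _ _⟩
      · rintro ⟨h1, h2⟩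
        obtain ⟨l, rfl⟩ := Fin.exists_succAbove_eq h2
        exact ⟨l, fun h => h1 (by rw [h]), rfl⟩
    rw [e]
    exact h
  unfold Cov
  refine ⟨?_, ?_, ?_, ?_, ?_, ?_, ?_⟩
  · obtain ⟨j, hj⟩ := key 0
    fin_cases j
    · have hj : ad G x 0 1 = 1 := hj
      omega
    · have hj : ad G x 0 2 = 1 := hj
      omega
    · have hj : ad G x 0 3 = 1 := hj
      omega
    · have hj : ad G x 0 4 = 1 := hj
      omega
    · have hj : ad G x 0 5 = 1 := hj
      omega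
    · have hj : ad G x 0 6 = 1 := hj
      omega
  · obtain ⟨j, hj⟩ := key 1
    fin_cases j
    · have hj : ad G x 1 0 = 1 := hj
      omega
    · have hj : ad G x 1 2 = 1 := hj
      omega
    · have hj : ad G x 1 3 = 1 := hj
      omega
    · have hj : ad G x 1 4 = 1 := hj
      omega
    · have hj : ad G x 1 5 = 1 := hj
      omega
    · have hj : ad G x 1 6 = 1 := hj
      omega
  · obtain ⟨j, hj⟩ := key 2
    fin_cases j
    · have hj : ad G x 2 0 = 1 := hj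
      omega
    · have hj : ad G x 2 1 = 1 := hj
      omega
    · have hj : ad G x 2 3 = 1 := hj
      omega
    · have hj : ad G x 2 4 = 1 := hj
      omega
    · have hj : ad G x 2 5 = 1 := hj
      omega
    · have hj : ad G x 2 6 = 1 := hj
      omega
  · obtain ⟨j, hj⟩ := key 3
    fin_cases j
    · have hj : ad G x 3 0 = 1 := hj
      omega
    · have hj : ad G x 3 1 = 1 := hj
      omega
    · have hj : ad G x 3 2 = 1 := hj
      omega
    · have hj : ad G x 3 4 = 1 := hj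
      omega
    · have hj : ad G x 3 5 = 1 := hj
      omega
    · have hj : ad G x 3 6 = 1 := hj
      omega
  · obtain ⟨j, hj⟩ := key 4
    fin_cases j
    · have hj : ad G x 4 0 = 1 := hj
      omega
    · have hj : ad G x 4 1 = 1 := hj
      omega
    · have hj : ad G x 4 2 = 1 := hj
      omega
    · have hj : ad G x 4 3 = 1 := hj
      omega
    · have hj : ad G x 4 5 = 1 := hj
      omega
    · have hj : ad G x 4 6 = 1 := hj
      omega
  · obtain ⟨j, hj⟩ := key 5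
    fin_cases j
    · have hj : ad G x 5 0 = 1 := hj
      omega
    · have hj : ad G x 5 1 = 1 := hj
      omega
    · have hj : ad G x 5 2 = 1 := hj
      omega
    · have hj : ad G x 5 3 = 1 := hj
      omega
    · have hj : ad G x 5 4 = 1 := hj
      omega
    · have hj : ad G x 5 6 = 1 := hj
      omega
  · obtain ⟨j, hj⟩ := key 6
    fin_cases j
    · have hj : ad G x 6 0 = 1 := hj
      omega
    · have hj : ad G x 6 1 = 1 := hj
      omega
    · have hj : ad G x 6 2 = 1 := hj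
      omega
    · have hj : ad G x 6 3 = 1 := hj
      omega
    · have hj : ad G x 6 4 = 1 := hj
      omega
    · have hj : ad G x 6 5 = 1 := hj
      omega


end Pool.Agent.H65.Six
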