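import Pool.Agent.H65.Six.C00
import Pool.Agent.H65.Six.C01
import Pool.Agent.H65.Six.C10
import Pool.Agent.H65.Six.C11
import Pool.Agent.H65.Six.D0
import Pool.Agent.H65.Six.D1
import Pool.Agent.H65.Six.Psd
import Pool.Agent.H65.Six.Sum

/-! The bound for the 5-graphs without complete subgraph on six vertices. -/

set_option autoImplicit false
set_option maxRecDepth 100000
set_option maxHeartbeats 4000000
open Finset

namespace Pool.Agent.H65.Six

open Pool.Agent.H122R2.N6 hiding TB tg walk walk_all chk chk_sound rep_good walk_good leaf_all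
open Pool.Agent.W843.Lnk (chk5 leaf_all5 bound5 TW lk lk_Sy fe orders_le)
open Pool.Agent.H120R2.Clique
open Pool.Agent.Q281.Tur (rho pc)

theorem hc (b012 b013 b023 b123 b014 b024 b124 b034 b134 b234 : ℕ) (hb012 : Bt b012) (hb013 : Bt b013) (hb023 : Bt b023) (hb123 : Bt b123) (hb014 : Bt b014) (hb024 : Bt b024) (hb124 : Bt b124) (hb034 : Bt b034) (hb134 : Bt b134) (hb234 : Bt b234) (ht : Pool.Agent.W846.K54.tg b012 b013 b023 b123 b014 b024 b124 b034 b134 b234 = 4) :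
    chk5 ww q4 q2 CST b012 b013 b023 b123 b014 b024 b124 b034 b134 b234 = true := by
  have key : ∀ x y : ℕ, (B2 fun b023 => B2 fun b123 => B2 fun b014 => B2 fun b024 => B2 fun b124 => B2 fun b034 => B2 fun b134 => B2 fun b234 => or (not (Nat.beq (Pool.Agent.W846.K54.tg x y b023 b123 b014 b024 b124 b034 b134 b234) 4)) (chk5 ww q4 q2 CST x y b023 b123 b014 b024 b124 b034 b134 b234)) = true →
      Pool.Agent.W846.K54.tg x y b023 b123 b014 b024 b124 b034 b134 b234 = 4 → chk5 ww q4 q2 CST x y b023 b123 b014 b024 b124 b034 b134 b234 = true := by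
    intro x y h ht
    have h2 := (B2_true (B2_true (B2_true (B2_true (B2_true (B2_true (B2_true (B2_true h hb023) hb123) hb014) hb024) hb124) hb034) hb134) hb234)
    refine or_false_left h2 ?_
    rw [ht]
    rfl
  rcases hb012 with rfl | rfl <;> rcases hb013 with rfl | rfl
  · exact key 0 0 part00 ht
  · exact key 0 1 part01 ht
  · exact key 1 0 part10 ht
  · exact key 1 1 part11 ht

theorem three (n : ℕ) (hn : 0 < n) (E : Fin n → Fin n → Fin n → ℕ) (hE : Sy E) :
    6 * TW E ww ≤ 68611137339 * (n : ℤ) ^ 5 := by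
  have hb := bound5 E hE ww 64 16 CST q4 (fun _ _ => 1) (fun c i k => l4 (rho c) (pc c i) k)
    q2 (fun _ => 1) l2 131072 34359738368 34359738368 hq4 hq2
    (leaf_all5 hE hw cs4 cs2 hc)
  have hC : (CST : ℤ) = 2130195439419 := rfl
  rw [hC, Fintype.card_fin] at hb
  have hn' : (0 : ℤ) < (n : ℤ) := by exact_mod_cast hn
  have h2 : (n : ℤ) * (6 * TW E ww) ≤ (n : ℤ) * (68611137339 * (n : ℤ) ^ 5) := by linarith
  exact le_of_mul_le_mul_left h2 hn'

theorem hd : ∀ b01 b02 b12 b03 b13 b23 b04 b14 b24 b34 b05 b15 b25 b35 b45 : ℕ,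
    Bt b01 → Bt b02 → Bt b12 → Bt b03 → Bt b13 → Bt b23 → Bt b04 → Bt b14 → Bt b24 → Bt b34 → Bt b05 → Bt b15 → Bt b25 → Bt b35 → Bt b45 →
    tg b01 b02 b12 b03 b13 b23 b04 b14 b24 b34 b05 b15 b25 b35 b45 = 5 →
    chk7 ww qz 17179869184 327411200026 721554505728 b01 b02 b12 b03 b13 b23 b04 b14 b24 b34 b05 b15 b25 b35 b45 = true := by
  intro b01 b02 b12 b03 b13 b23 b04 b14 b24 b34 b05 b15 b25 b35 b45 h0 h1 h2 h3 h4 h5 h6 h7 h8 h9 h10 h11 h12 h13 h14 ht
  have key : ∀ x : ℕ, (B2 fun b02 => B2 fun b12 => B2 fun b03 => B2 fun b13 => B2 fun b23 => B2 fun b04 => B2 fun b14 => B2 fun b24 => B2 fun b34 => B2 fun b05 => B2 fun b15 => B2 fun b25 => B2 fun b35 => B2 fun b45 => or (not (Nat.beq (tg x b02 b12 b03 b13 b23 b04 b14 b24 b34 b05 b15 b25 b35 b45) 5)) (chk7 ww qz 17179869184 327411200026 721554505728 x b02 b12 b03 b13 b23 b04 b14 b24 b34 b05 b15 b25 b35 b45)) = true →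
      tg x b02 b12 b03 b13 b23 b04 b14 b24 b34 b05 b15 b25 b35 b45 = 5 → chk7 ww qz 17179869184 327411200026 721554505728 x b02 b12 b03 b13 b23 b04 b14 b24 b34 b05 b15 b25 b35 b45 = true := by
    intro x h ht
    have g := B2_true (B2_true (B2_true (B2_true (B2_true (B2_true (B2_true (B2_true (B2_true (B2_true (B2_true (B2_true (B2_true (B2_true h h1) h2) h3) h4) h5) h6) h7) h8) h9) h10) h11) h12) h13) h14
    refine or_false_left g ?_
    rw [ht]
    rfl
  rcases h0 with rfl | rfl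
  · exact key 0 qart0 ht
  · exact key 1 qart1 ht

/-- the number of edges of a 5-graph without complete subgraph on six vertices -/
theorem card_le {n : ℕ} (hn : 0 < n) (G : Finset (Finset (Fin n))) (hr : ∀ A ∈ G, A.card = 5)
    (hK : ¬ HasClique G 5 6) : 721554505728 * (120 * (G.card : ℤ)) ≤ 547010067049 * (n : ℤ) ^ 5 := by
  have hn' : (0 : ℤ) < (n : ℤ) := by exact_mod_cast hn
  set N : ℤ := (n : ℤ) with hN
  -- the inequality for every tuple
  have h1 : ∀ x : Fin 7 → Fin n, (Q7 (ad G x) qz 0 1 2 3 4 5 6 : ℤ) + 327411200026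
      ≤ 17179869184 * (E7 (ad G x) 0 1 2 3 4 5 6 : ℤ) + ((W7 (ad G x) ww 0 1 2 3 4 5 6 : ℤ) + 721554505728) := by
    intro x
    exact_mod_cast leaf_all7 (ad_Sg G x) hw csz hd 0 1 2 3 4 5 6 (cov hr hK x)
  have h2 := sum_le_sum fun x (_ : x ∈ (univ : Finset (Fin 7 → Fin n))) => h1 x
  simp only [sum_add_distrib, ← mul_sum] at h2
  rw [sumQ7, sumE7, sumW7, sumWlink, sum_fe5] at h2
  simp only [sum_const, card_univ, Fintype.card_fun, Fintype.card_fin, nsmul_eq_mul] at h2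
  have h3 := lowQ G qz lz 32 131072 34359738368 hqz
  rw [Fintype.card_fin] at h3
  have h4 : ∑ p : Fin 2 → Fin n, 6 * TW (lk G p) ww ≤ ∑ p : Fin 2 → Fin n, 68611137339 * (n : ℤ) ^ 5 :=
    sum_le_sum fun p _ => three n hn (lk G p) (lk_Sy G p)
  rw [← mul_sum, sum_const, card_univ, Fintype.card_fun, Fintype.card_fin, Fintype.card_fin, nsmul_eq_mul] at h4
  have h5 := orders_le G hr
  have h6 : (Nat.factorial 5 : ℤ) = 120 := by decide
  rw [h6] at h5
  set M : ℤ := ∑ y : Fin 5 → Fin n, (fe G (univ.image y) : ℤ) with hM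
  set TWs : ℤ := ∑ p : Fin 2 → Fin n, TW (lk G p) ww with hTW
  set QS : ℤ := ∑ x : Fin 7 → Fin n, (QA (ad G x) qz 5 6 0 1 2 3 4 : ℤ) with hQS
  push_cast at h2 h4
  rw [← hN] at h2 h3 h4 h5
  have h7 : N ^ 2 * (721554505728 * (120 * (G.card : ℤ))) ≤ N ^ 2 * (547010067049 * N ^ 5) := by
    have e1 : N ^ 7 = N ^ 2 * N ^ 5 := by ring
    have e2 : N ^ 2 * (68611137339 * N ^ 5) = 68611137339 * (N ^ 2 * N ^ 5) := by ring
    rw [e2] at h4
    rw [e1] at h2 h3
    have h8 : N ^ 2 * (120 * (G.card : ℤ)) ≤ N ^ 2 * (N ^ 5 - M) :=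
      mul_le_mul_of_nonneg_left h5 (by positivity)
    have e3 : N ^ 2 * (N ^ 5 - M) = N ^ 2 * N ^ 5 - N ^ 2 * M := by ring
    rw [e3] at h8
    have e4 : N ^ 2 * (721554505728 * (120 * (G.card : ℤ))) = 721554505728 * (N ^ 2 * (120 * (G.card : ℤ))) := by ring
    have e5 : N ^ 2 * (547010067049 * N ^ 5) = 547010067049 * (N ^ 2 * N ^ 5) := by ring
    rw [e4, e5]
    generalize N ^ 2 * (120 * (G.card : ℤ)) = X at *
    generalize N ^ 2 * N ^ 5 = Y at *
    generalize N ^ 2 * M = Z at *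
    linarith
  exact le_of_mul_le_mul_left h7 (by positivity)

end Pool.Agent.H65.Six
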