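import Pool.Agent.H65.Six.Walk

/-! The inequality for all graphs on seven positions from the check of the representatives. -/

set_option autoImplicit false
set_option maxRecDepth 100000
set_option maxHeartbeats 4000000

namespace Pool.Agent.H65.Six

open Pool.Agent.H122R2.N6 (Bt B2 B2_true or_false_left)
open Pool.Agent.W843.Lnk (cd10 sym5 sym5_all)

section
variable {P : Type} {A : P → P → ℕ}

def Ineq (A : P → P → ℕ) (w : ℕ → ℕ) (qz : ℕ → ℕ → ℕ → ℕ) (S r C : ℕ) (a b c d e f g : P) : Prop :=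
  Cov A a b c d e f g → Q7 A qz a b c d e f g + r ≤ S * E7 A a b c d e f g + (W7 A w a b c d e f g + C)

def Good7 (A : P → P → ℕ) (w : ℕ → ℕ) (qz : ℕ → ℕ → ℕ → ℕ) (S r C : ℕ) (b01 b02 b12 b03 b13 b23 b04 b14 b24 b34 b05 b15 b25 b35 b45 : ℕ) : Prop :=
  ∀ a b c d e f g : P, A a b = b01 → A a c = b02 → A b c = b12 → A a d = b03 → A b d = b13 → A c d = b23 → A a e = b04 → A b e = b14 → A c e = b24 → A d e = b34 → A a f = b05 → A b f = b15 → A c f = b25 → A d f = b35 → A e f = b45 → Ineq A w qz S r C a b c d e f g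

theorem chk7_sound (hA : Sg A) {w : ℕ → ℕ} {qz : ℕ → ℕ → ℕ → ℕ} {S r C : ℕ} (a b c d e f g : P)
    (h : chk7 w qz S r C (A a b) (A a c) (A b c) (A a d) (A b d) (A c d) (A a e) (A b e) (A c e) (A d e) (A a f) (A b f) (A c f) (A d f) (A e f) = true) : Ineq A w qz S r C a b c d e f g := by
  intro hc
  have h2 := or_false_left (B2_true (B2_true (B2_true (B2_true (B2_true (B2_true h (hA.b a g)) (hA.b b g)) (hA.b c g)) (hA.b d g)) (hA.b e g)) (hA.b f g)) (iso_eq hA a b c d e f g hc)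
  have h3 := Nat.le_of_ble_eq_true h2
  rw [wsum_eq, qsum_eq hA, esum_eq] at h3
  exact h3

theorem rep_good7 (hA : Sg A) {w : ℕ → ℕ} {qz : ℕ → ℕ → ℕ → ℕ} {S r C : ℕ}
    (hc : ∀ b01 b02 b12 b03 b13 b23 b04 b14 b24 b34 b05 b15 b25 b35 b45 : ℕ, Bt b01 → Bt b02 → Bt b12 → Bt b03 → Bt b13 → Bt b23 → Bt b04 → Bt b14 → Bt b24 → Bt b34 → Bt b05 → Bt b15 → Bt b25 → Bt b35 → Bt b45 → tg b01 b02 b12 b03 b13 b23 b04 b14 b24 b34 b05 b15 b25 b35 b45 = 5 → chk7 w qz S r C b01 b02 b12 b03 b13 b23 b04 b14 b24 b34 b05 b15 b25 b35 b45 = true)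
    (b01 b02 b12 b03 b13 b23 b04 b14 b24 b34 b05 b15 b25 b35 b45 : ℕ) (ht : tg b01 b02 b12 b03 b13 b23 b04 b14 b24 b34 b05 b15 b25 b35 b45 = 5) : Good7 A w qz S r C b01 b02 b12 b03 b13 b23 b04 b14 b24 b34 b05 b15 b25 b35 b45 := by
  intro a b c d e f g h01 h02 h12 h03 h13 h23 h04 h14 h24 h34 h05 h15 h25 h35 h45
  subst h01 h02 h12 h03 h13 h23 h04 h14 h24 h34 h05 h15 h25 h35 h45
  exact chk7_sound hA a b c d e f g (hc _ _ _ _ _ _ _ _ _ _ _ _ _ _ _ (hA.b _ _) (hA.b _ _) (hA.b _ _) (hA.b _ _) (hA.b _ _) (hA.b _ _) (hA.b _ _) (hA.b _ _) (hA.b _ _) (hA.b _ _) (hA.b _ _) (hA.b _ _) (hA.b _ _) (hA.b _ _) (hA.b _ _) ht)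

theorem good7_sw0 (hA : Sg A) {w : ℕ → ℕ} {qz : ℕ → ℕ → ℕ → ℕ} {S r C : ℕ} (hw : sym5 w = true) (hq : symz qz = true)
    (b01 b02 b12 b03 b13 b23 b04 b14 b24 b34 b05 b15 b25 b35 b45 : ℕ) (h : Good7 A w qz S r C b01 b12 b02 b13 b03 b23 b14 b04 b24 b34 b15 b05 b25 b35 b45) : Good7 A w qz S r C b01 b02 b12 b03 b13 b23 b04 b14 b24 b34 b05 b15 b25 b35 b45 := by
  intro a b c d e f g h01 h02 h12 h03 h13 h23 h04 h14 h24 h34 h05 h15 h25 h35 h45 hc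
  have h' := h b a c d e f g ((hA.s a b).trans h01) h12 h02 h13 h03 h23 h14 h04 h24 h34 h15 h05 h25 h35 h45 (Cov_sw0 hA a b c d e f g hc)
  rwa [W7_sw0 hA hw, Q7_sw0 hA hq, E7_sw0 hA] at h'

theorem good7_sw1 (hA : Sg A) {w : ℕ → ℕ} {qz : ℕ → ℕ → ℕ → ℕ} {S r C : ℕ} (hw : sym5 w = true) (hq : symz qz = true)
    (b01 b02 b12 b03 b13 b23 b04 b14 b24 b34 b05 b15 b25 b35 b45 : ℕ) (h : Good7 A w qz S r C b02 b01 b12 b03 b23 b13 b04 b24 b14 b34 b05 b25 b15 b35 b45) : Good7 A w qz S r C b01 b02 b12 b03 b13 b23 b04 b14 b24 b34 b05 b15 b25 b35 b45 := by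
  intro a b c d e f g h01 h02 h12 h03 h13 h23 h04 h14 h24 h34 h05 h15 h25 h35 h45 hc
  have h' := h a c b d e f g h02 h01 ((hA.s b c).trans h12) h03 h23 h13 h04 h24 h14 h34 h05 h25 h15 h35 h45 (Cov_sw1 hA a b c d e f g hc)
  rwa [W7_sw1 hA hw, Q7_sw1 hA hq, E7_sw1 hA] at h'

theorem good7_sw2 (hA : Sg A) {w : ℕ → ℕ} {qz : ℕ → ℕ → ℕ → ℕ} {S r C : ℕ} (hw : sym5 w = true) (hq : symz qz = true)
    (b01 b02 b12 b03 b13 b23 b04 b14 b24 b34 b05 b15 b25 b35 b45 : ℕ) (h : Good7 A w qz S r C b01 b03 b13 b02 b12 b23 b04 b14 b34 b24 b05 b15 b35 b25 b45) : Good7 A w qz S r C b01 b02 b12 b03 b13 b23 b04 b14 b24 b34 b05 b15 b25 b35 b45 := by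
  intro a b c d e f g h01 h02 h12 h03 h13 h23 h04 h14 h24 h34 h05 h15 h25 h35 h45 hc
  have h' := h a b d c e f g h01 h03 h13 h02 h12 ((hA.s c d).trans h23) h04 h14 h34 h24 h05 h15 h35 h25 h45 (Cov_sw2 hA a b c d e f g hc)
  rwa [W7_sw2 hA hw, Q7_sw2 hA hq, E7_sw2 hA] at h'

theorem good7_sw3 (hA : Sg A) {w : ℕ → ℕ} {qz : ℕ → ℕ → ℕ → ℕ} {S r C : ℕ} (hw : sym5 w = true) (hq : symz qz = true)
    (b01 b02 b12 b03 b13 b23 b04 b14 b24 b34 b05 b15 b25 b35 b45 : ℕ) (h : Good7 A w qz S r C b01 b02 b12 b04 b14 b24 b03 b13 b23 b34 b05 b15 b25 b45 b35) : Good7 A w qz S r C b01 b02 b12 b03 b13 b23 b04 b14 b24 b34 b05 b15 b25 b35 b45 := by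
  intro a b c d e f g h01 h02 h12 h03 h13 h23 h04 h14 h24 h34 h05 h15 h25 h35 h45 hc
  have h' := h a b c e d f g h01 h02 h12 h04 h14 h24 h03 h13 h23 ((hA.s d e).trans h34) h05 h15 h25 h45 h35 (Cov_sw3 hA a b c d e f g hc)
  rwa [W7_sw3 hA hw, Q7_sw3 hA hq, E7_sw3 hA] at h'

theorem good7_sw4 (hA : Sg A) {w : ℕ → ℕ} {qz : ℕ → ℕ → ℕ → ℕ} {S r C : ℕ} (hw : sym5 w = true) (hq : symz qz = true)
    (b01 b02 b12 b03 b13 b23 b04 b14 b24 b34 b05 b15 b25 b35 b45 : ℕ) (h : Good7 A w qz S r C b01 b02 b12 b03 b13 b23 b05 b15 b25 b35 b04 b14 b24 b34 b45) : Good7 A w qz S r C b01 b02 b12 b03 b13 b23 b04 b14 b24 b34 b05 b15 b25 b35 b45 := by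
  intro a b c d e f g h01 h02 h12 h03 h13 h23 h04 h14 h24 h34 h05 h15 h25 h35 h45 hc
  have h' := h a b c d f e g h01 h02 h12 h03 h13 h23 h05 h15 h25 h35 h04 h14 h24 h34 ((hA.s e f).trans h45) (Cov_sw4 hA a b c d e f g hc)
  rwa [W7_sw4 hA hw, Q7_sw4 hA hq, E7_sw4 hA] at h'

theorem leaf_all7 (hA : Sg A) {w : ℕ → ℕ} {qz : ℕ → ℕ → ℕ → ℕ} {S r C : ℕ} (hw : sym5 w = true) (hq : symz qz = true)
    (hc : ∀ b01 b02 b12 b03 b13 b23 b04 b14 b24 b34 b05 b15 b25 b35 b45 : ℕ, Bt b01 → Bt b02 → Bt b12 → Bt b03 → Bt b13 → Bt b23 → Bt b04 → Bt b14 → Bt b24 → Bt b34 → Bt b05 → Bt b15 → Bt b25 → Bt b35 → Bt b45 → tg b01 b02 b12 b03 b13 b23 b04 b14 b24 b34 b05 b15 b25 b35 b45 = 5 → chk7 w qz S r C b01 b02 b12 b03 b13 b23 b04 b14 b24 b34 b05 b15 b25 b35 b45 = true)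
    (a b c d e f g : P) : Ineq A w qz S r C a b c d e f g :=
  walk (fun b01 b02 b12 b03 b13 b23 b04 b14 b24 b34 b05 b15 b25 b35 b45 => Good7 A w qz S r C b01 b02 b12 b03 b13 b23 b04 b14 b24 b34 b05 b15 b25 b35 b45)
    (good7_sw0 hA hw hq) (good7_sw1 hA hw hq) (good7_sw2 hA hw hq) (good7_sw3 hA hw hq) (good7_sw4 hA hw hq)
    (fun b01 b02 b12 b03 b13 b23 b04 b14 b24 b34 b05 b15 b25 b35 b45 _ _ _ _ _ _ _ _ _ _ _ _ _ _ _ ht => rep_good7 hA hc b01 b02 b12 b03 b13 b23 b04 b14 b24 b34 b05 b15 b25 b35 b45 ht) _ _ _ _ _ _ _ _ _ _ _ _ _ _ _ _ (hA.b _ _) (hA.b _ _) (hA.b _ _) (hA.b _ _) (hA.b _ _) (hA.b _ _) (hA.b _ _) (hA.b _ _) (hA.b _ _) (hA.b _ _) (hA.b _ _) (hA.b _ _) (hA.b _ _) (hA.b _ _) (hA.b _ _) le_rfl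
    a b c d e f g rfl rfl rfl rfl rfl rfl rfl rfl rfl rfl rfl rfl rfl rfl rfl

end
end Pool.Agent.H65.Six
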